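import Mathlib
import Pool.Agent.R530.McLainGrp

/-!
# A characteristically simple group, neither simple nor FCR, whose diagonal groups preserve a
Cartesian lattice

The group is `M × M`, where `M` is the McLain group over the field with two elements on the chain
of rational numbers.
-/

set_option autoImplicit false

namespace Pool.Agent.Results.MP_f6f6d4_al.McLainSquare

open Set Pool.Agent.R530

/-! ### Definitions of the problem -/

/-- `T` is nontrivial and has no characteristic subgroups except `1` and `T`. -/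
def CharSimple (T : Type) [Group T] : Prop :=
  Nontrivial T ∧ ∀ C : Subgroup T, C.Characteristic → C = ⊥ ∨ C = ⊤

/-- `T` is isomorphic to `S ^ k` for a non-abelian simple group `S` and some `k ≥ 1`. -/
def IsFCR (T : Type) [Group T] : Prop :=
  ∃ (S : Type) (_ : Group S) (k : ℕ), IsSimpleGroup S ∧ (∃ a b : S, a * b ≠ b * a) ∧ 1 ≤ k ∧
    Nonempty (T ≃* (Fin k → S))

/-- The diagonal subgroup `δ(T)` of `T ^ (m + 1)`. -/
def diag (T : Type) [Group T] (m : ℕ) : Subgroup (Fin (m + 1) → T) where
  carrier := {x | ∃ t : T, x = fun _ => t}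
  one_mem' := ⟨1, rfl⟩
  mul_mem' := by
    rintro _ _ ⟨s, rfl⟩ ⟨t, rfl⟩
    exact ⟨s * t, rfl⟩
  inv_mem' := by
    rintro _ ⟨s, rfl⟩
    exact ⟨s⁻¹, rfl⟩

/-- The set `Ω` of right cosets `δ(T) x`. -/
abbrev Omega (T : Type) [Group T] (m : ℕ) : Type := Quotient (QuotientGroup.rightRel (diag T m))

theorem rel_iff {T : Type} [Group T] {m : ℕ} (x y : Fin (m + 1) → T) :
    QuotientGroup.rightRel (diag T m) x y ↔ ∃ t : T, ∀ i, y i = t * x i := by
  rw [QuotientGroup.rightRel_apply]
  constructor
  · rintro ⟨t, ht⟩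
    refine ⟨t, fun i => ?_⟩
    have := congrFun ht i
    simp only [Pi.mul_apply, Pi.inv_apply] at this
    rw [← this]
    group
  · rintro ⟨t, ht⟩
    refine ⟨t, funext fun i => ?_⟩
    simp only [Pi.mul_apply, Pi.inv_apply]
    rw [ht i]
    group

/-- Right multiplication by `u` on `Ω`. -/
def rightMul {T : Type} [Group T] {m : ℕ} (u : Fin (m + 1) → T) : Equiv.Perm (Omega T m) :=
  Quotient.congr (Equiv.mulRight u) (by
    intro x y
    rw [rel_iff, rel_iff]
    refine exists_congr fun t => forall_congr' fun i => ?_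
    simp only [Equiv.coe_mulRight, Pi.mul_apply]
    rw [← mul_assoc, mul_left_inj])

/-- The permutation of `Ω` induced by an automorphism of `T` applied to all coordinates. -/
def autMap {T : Type} [Group T] {m : ℕ} (α : MulAut T) : Equiv.Perm (Omega T m) :=
  Quotient.congr (Equiv.piCongrRight fun _ : Fin (m + 1) => α.toEquiv) (by
    intro x y
    rw [rel_iff, rel_iff]
    constructor
    · rintro ⟨t, ht⟩
      refine ⟨α t, fun i => ?_⟩
      show α (y i) = α t * α (x i)
      rw [ht i, map_mul]
    · rintro ⟨t, ht⟩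
      refine ⟨α.symm t, fun i => ?_⟩
      have h1 : α (y i) = t * α (x i) := ht i
      apply α.injective
      rw [h1, map_mul, α.apply_symm_apply])

/-- The permutation of `Ω` induced by a permutation of the coordinates. -/
def permMap {T : Type} [Group T] {m : ℕ} (σ : Equiv.Perm (Fin (m + 1))) :
    Equiv.Perm (Omega T m) :=
  Quotient.congr (Equiv.arrowCongr σ (Equiv.refl T)) (by
    intro x y
    rw [rel_iff, rel_iff]
    refine exists_congr fun t => ?_
    constructor
    · intro h i
      exact h (σ.symm i)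
    · intro h i
      have := h (σ i)
      simpa [Equiv.arrowCongr] using this)

/-- The diagonal group `D(T, m)`. -/
def D (T : Type) [Group T] (m : ℕ) : Subgroup (Equiv.Perm (Omega T m)) :=
  Subgroup.closure (range rightMul ∪ range autMap ∪ range permMap)

/-- The partition `Q_J` transported to `Ω` by `e`: two points are in the same part when their
images agree in every coordinate outside `J`. -/
def QJ {Ω Δ : Type} {n : ℕ} (e : Ω ≃ (Fin n → Δ)) (J : Set (Fin n)) : Setoid Ω where
  r x y := ∀ i, i ∉ J → e x i = e y i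
  iseqv := ⟨fun _ _ _ => rfl, fun h i hi => (h i hi).symm,
    fun h1 h2 i hi => (h1 i hi).trans (h2 i hi)⟩

/-- The image of a partition under a permutation: `x` and `y` are in the same part of `g(P)` when
`g⁻¹ x` and `g⁻¹ y` are in the same part of `P`. -/
def imagePartition {Ω : Type} (g : Equiv.Perm Ω) (P : Setoid Ω) : Setoid Ω := P.comap g.symm

/-- `G` preserves a Cartesian lattice on `Ω`. -/
def PreservesCartesianLattice {Ω : Type} (G : Subgroup (Equiv.Perm Ω)) : Prop :=
  ∃ (Δ : Type) (n : ℕ) (e : Ω ≃ (Fin n → Δ)), Nontrivial Δ ∧ 2 ≤ n ∧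
    ∀ g ∈ G, imagePartition g '' range (QJ e) = range (QJ e)

/-! ### The lattice property -/

/-- `g` permutes the coordinates, as far as agreement of coordinates is concerned -/
def Permutes {Ω Δ : Type} {n : ℕ} (e : Ω ≃ (Fin n → Δ)) (g : Equiv.Perm Ω) : Prop :=
  ∃ σ : Equiv.Perm (Fin n), ∀ x y i, e (g x) i = e (g y) i ↔ e x (σ i) = e y (σ i)

theorem image_of_permutes {Ω Δ : Type} {n : ℕ} (e : Ω ≃ (Fin n → Δ)) {g : Equiv.Perm Ω}
    (hg : Permutes e g) : imagePartition g '' range (QJ e) = range (QJ e) := by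
  obtain ⟨σ, hσ⟩ := hg
  have key : ∀ J : Set (Fin n), imagePartition g (QJ e J) = QJ e (σ ⁻¹' J) := by
    intro J
    ext x y
    show (∀ i, i ∉ J → e (g.symm x) i = e (g.symm y) i) ↔ ∀ i, i ∉ σ ⁻¹' J → e x i = e y i
    have h1 : ∀ i, e (g.symm x) (σ i) = e (g.symm y) (σ i) ↔ e x i = e y i := by
      intro i
      have := hσ (g.symm x) (g.symm y) i
      rw [g.apply_symm_apply, g.apply_symm_apply] at this
      exact this.symm
    constructor
    · intro h i hi
      exact (h1 i).1 (h (σ i) hi)
    · intro h i hi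
      obtain ⟨j, rfl⟩ := σ.surjective i
      exact (h1 j).2 (h j hi)
  ext P
  constructor
  · rintro ⟨_, ⟨J, rfl⟩, rfl⟩
    exact ⟨_, (key J).symm⟩
  · rintro ⟨J, rfl⟩
    refine ⟨QJ e (σ '' J), ⟨_, rfl⟩, ?_⟩
    rw [key, preimage_image_eq _ σ.injective]

theorem permutes_closure {Ω Δ : Type} {n : ℕ} (e : Ω ≃ (Fin n → Δ)) {S : Set (Equiv.Perm Ω)}
    (hS : ∀ g ∈ S, Permutes e g) {g : Equiv.Perm Ω} (hg : g ∈ Subgroup.closure S) :
    Permutes e g := by
  induction hg using Subgroup.closure_induction with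
  | mem x hx => exact hS x hx
  | one => exact ⟨1, fun _ _ _ => Iff.rfl⟩
  | mul a b _ _ ha hb =>
    obtain ⟨σ, hσ⟩ := ha
    obtain ⟨τ, hτ⟩ := hb
    refine ⟨τ * σ, fun x y i => ?_⟩
    show e (a (b x)) i = e (a (b y)) i ↔ e x (τ (σ i)) = e y (τ (σ i))
    rw [hσ, hτ]
  | inv a _ ha =>
    obtain ⟨σ, hσ⟩ := ha
    refine ⟨σ.symm, fun x y i => ?_⟩
    have := hσ (a.symm x) (a.symm y) (σ.symm i)
    rw [a.apply_symm_apply, a.apply_symm_apply, σ.apply_symm_apply] at this
    exact this.symm

/-! ### Abstract part: squares of suitable groups -/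

/-- The properties of the McLain group that are used. -/
structure Suitable (M : Type) [Group M] : Prop where
  char : ∀ C : Subgroup M, C.Characteristic → C = ⊥ ∨ C = ⊤
  nonab : ∃ a b : M, a * b ≠ b * a
  inf : ∀ N₁ N₂ : Subgroup M, N₁.Normal → N₂.Normal → N₁ ≠ ⊥ → N₂ ≠ ⊥ → N₁ ⊓ N₂ ≠ ⊥
  sub : ∃ N : Subgroup M, N.Normal ∧ N ≠ ⊤ ∧ Subgroup.centralizer (N : Set M) = ⊥

variable {M : Type} [Group M]

theorem Suitable.center (h : Suitable M) : ∀ z : M, (∀ g : M, g * z = z * g) → z = 1 := by
  obtain ⟨a, b, hab⟩ := h.nonab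
  have h1 : Subgroup.center M = ⊥ := by
    rcases h.char (Subgroup.center M) inferInstance with h1 | h1
    · exact h1
    · exfalso
      have : b ∈ Subgroup.center M := by rw [h1]; trivial
      exact hab (Subgroup.mem_center_iff.1 this a)
  intro z hz
  have : z ∈ Subgroup.center M := Subgroup.mem_center_iff.2 hz
  rw [h1] at this
  exact this

theorem Suitable.nontrivial (h : Suitable M) : Nontrivial M := by
  obtain ⟨a, b, hab⟩ := h.nonab
  exact ⟨⟨_, _, hab⟩⟩

/-- commuting homs whose ranges generate: one of them is trivial -/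
theorem Suitable.split (h : Suitable M) (a a' : M →* M) (hc : ∀ x y, a x * a' y = a' y * a x)
    (hs : ∀ g, ∃ x y, g = a x * a' y) : (∀ x, a x = 1) ∨ ∀ y, a' y = 1 := by
  have hn1 : a.range.Normal := by
    constructor
    rintro _ ⟨x, rfl⟩ g
    obtain ⟨x0, y0, rfl⟩ := hs g
    refine ⟨x0 * x * x0⁻¹, ?_⟩
    rw [map_mul, map_mul, map_inv]
    have h1 : a' y0 * a x * (a' y0)⁻¹ = a x := by rw [← hc, mul_assoc, mul_inv_cancel, mul_one]
    calc a x0 * a x * (a x0)⁻¹ = a x0 * (a' y0 * a x * (a' y0)⁻¹) * (a x0)⁻¹ := by rw [h1]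
      _ = _ := by group
  have hn2 : a'.range.Normal := by
    constructor
    rintro _ ⟨y, rfl⟩ g
    obtain ⟨x0, y0, rfl⟩ := hs g
    refine ⟨y0 * y * y0⁻¹, ?_⟩
    rw [map_mul, map_mul, map_inv]
    have h1 : a x0 * (a' y0 * a' y * (a' y0)⁻¹) * (a x0)⁻¹ = a' y0 * a' y * (a' y0)⁻¹ := by
      rw [← map_inv, ← map_mul, ← map_mul, hc, mul_assoc, mul_inv_cancel, mul_one]
    calc a' y0 * a' y * (a' y0)⁻¹ = a x0 * (a' y0 * a' y * (a' y0)⁻¹) * (a x0)⁻¹ := h1.symm
      _ = _ := by group
  have hinf : a.range ⊓ a'.range = ⊥ := by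
    rw [eq_bot_iff]
    rintro z ⟨⟨x, hx⟩, ⟨y, hy⟩⟩
    refine h.center z fun g => ?_
    obtain ⟨x0, y0, rfl⟩ := hs g
    have h1 : a x0 * z = z * a x0 := by rw [← hy]; exact hc x0 y
    have h2 : a' y0 * z = z * a' y0 := by rw [← hx]; exact (hc x y0).symm
    rw [mul_assoc, h2, ← mul_assoc, h1, mul_assoc]
  by_contra hcon
  rw [not_or] at hcon
  obtain ⟨hc1, hc2⟩ := hcon
  refine h.inf _ _ hn1 hn2 ?_ ?_ hinf
  · intro hb
    refine hc1 fun x => ?_
    have : a x ∈ a.range := ⟨x, rfl⟩
    rw [hb] at this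
    exact this
  · intro hb
    refine hc2 fun x => ?_
    have : a' x ∈ a'.range := ⟨x, rfl⟩
    rw [hb] at this
    exact this

/-- Automorphisms of `M × M` permute the two factors. -/
theorem Suitable.aut (h : Suitable M) (α : MulAut (M × M)) :
    (∃ p q : M ≃* M, ∀ z, α z = (p z.1, q z.2)) ∨
      ∃ p q : M ≃* M, ∀ z, α z = (p z.2, q z.1) := by
  have := h.nontrivial
  let a : M →* M := (MonoidHom.fst M M).comp (α.toMonoidHom.comp (MonoidHom.inl M M))
  let b : M →* M := (MonoidHom.snd M M).comp (α.toMonoidHom.comp (MonoidHom.inl M M))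
  let a' : M →* M := (MonoidHom.fst M M).comp (α.toMonoidHom.comp (MonoidHom.inr M M))
  let b' : M →* M := (MonoidHom.snd M M).comp (α.toMonoidHom.comp (MonoidHom.inr M M))
  have hα1 : ∀ x, α (x, 1) = (a x, b x) := fun x => rfl
  have hα2 : ∀ y, α (1, y) = (a' y, b' y) := fun y => rfl
  have hα : ∀ x y, α (x, y) = (a x * a' y, b x * b' y) := by
    intro x y
    have : ((x, y) : M × M) = (x, 1) * (1, y) := by simp
    rw [this, map_mul, hα1, hα2]
    rfl
  have hcomm : ∀ x y, (a x * a' y, b x * b' y) = (a' y * a x, b' y * b x) := by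
    intro x y
    rw [← hα x y]
    have : ((x, y) : M × M) = (1, y) * (x, 1) := by simp
    rw [this, map_mul, hα1, hα2]
    rfl
  have hs1 : ∀ g, ∃ x y, g = a x * a' y := by
    intro g
    obtain ⟨⟨x, y⟩, hxy⟩ := α.surjective (g, 1)
    rw [hα] at hxy
    exact ⟨x, y, (congrArg Prod.fst hxy).symm⟩
  have hs2 : ∀ g, ∃ x y, g = b x * b' y := by
    intro g
    obtain ⟨⟨x, y⟩, hxy⟩ := α.surjective (1, g)
    rw [hα] at hxy
    exact ⟨x, y, (congrArg Prod.snd hxy).symm⟩
  have hA := h.split a a' (fun x y => congrArg Prod.fst (hcomm x y)) hs1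
  have hB := h.split b b' (fun x y => congrArg Prod.snd (hcomm x y)) hs2
  obtain ⟨w, hw⟩ := exists_ne (1 : M)
  rcases hA with hA | hA <;> rcases hB with hB | hB
  · exfalso
    have : α (w, 1) = α (1, 1) := by
      rw [hα1, hA, hB, hα1, map_one, map_one]
    have := congrArg Prod.fst (α.injective this)
    exact hw this
  · right
    have hbij1 : Function.Bijective a' := by
      constructor
      · rw [injective_iff_map_eq_one]
        intro y hy
        have : α (1, y) = α (1, 1) := by rw [hα2, hy, hB, hα2, map_one, map_one]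
        exact congrArg Prod.snd (α.injective this)
      · intro g
        obtain ⟨x, y, hxy⟩ := hs1 g
        rw [hA, one_mul] at hxy
        exact ⟨y, hxy.symm⟩
    have hbij2 : Function.Bijective b := by
      constructor
      · rw [injective_iff_map_eq_one]
        intro x hx
        have : α (x, 1) = α (1, 1) := by rw [hα1, hx, hA, hα1, map_one, map_one]
        exact congrArg Prod.fst (α.injective this)
      · intro g
        obtain ⟨x, y, hxy⟩ := hs2 g
        rw [hB, mul_one] at hxy
        exact ⟨x, hxy.symm⟩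
    refine ⟨MulEquiv.ofBijective a' hbij1, MulEquiv.ofBijective b hbij2, fun z => ?_⟩
    show α (z.1, z.2) = _
    rw [hα, hA, hB, one_mul, mul_one]
    rfl
  · left
    have hbij1 : Function.Bijective a := by
      constructor
      · rw [injective_iff_map_eq_one]
        intro x hx
        have : α (x, 1) = α (1, 1) := by rw [hα1, hx, hB, hα1, map_one, map_one]
        exact congrArg Prod.fst (α.injective this)
      · intro g
        obtain ⟨x, y, hxy⟩ := hs1 g
        rw [hA, mul_one] at hxy
        exact ⟨x, hxy.symm⟩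
    have hbij2 : Function.Bijective b' := by
      constructor
      · rw [injective_iff_map_eq_one]
        intro y hy
        have : α (1, y) = α (1, 1) := by rw [hα2, hy, hA, hα2, map_one, map_one]
        exact congrArg Prod.snd (α.injective this)
      · intro g
        obtain ⟨x, y, hxy⟩ := hs2 g
        rw [hB, one_mul] at hxy
        exact ⟨y, hxy.symm⟩
    refine ⟨MulEquiv.ofBijective a hbij1, MulEquiv.ofBijective b' hbij2, fun z => ?_⟩
    show α (z.1, z.2) = _
    rw [hα, hA, hB, one_mul, mul_one]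
    rfl
  · exfalso
    have : α (1, w) = α (1, 1) := by
      rw [hα2, hA, hB, hα2, map_one, map_one]
    have := congrArg Prod.snd (α.injective this)
    exact hw this

theorem Suitable.charSimple (h : Suitable M) : CharSimple (M × M) := by
  have := h.nontrivial
  refine ⟨inferInstance, fun C hC => ?_⟩
  have := hC
  have hCn : C.Normal := inferInstance
  by_cases h0 : C = ⊥
  · exact Or.inl h0
  right
  have hswap : ∀ x y : M, (x, y) ∈ C → (y, x) ∈ C := by
    intro x y hxy
    have h1 : (y, x) ∈ C.comap (MulEquiv.prodComm (M := M) (N := M)).toMonoidHom := hxy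
    rwa [hC.fixed (MulEquiv.prodComm (M := M) (N := M))] at h1
  have hchar : (C.comap (MonoidHom.inl M M)).Characteristic := by
    constructor
    intro φ
    ext x
    show (φ x, (1 : M)) ∈ C ↔ (x, (1 : M)) ∈ C
    have h2 := hC.fixed (MulEquiv.prodCongr φ (MulEquiv.refl M))
    have h3 : (x, (1 : M)) ∈ C.comap (MulEquiv.prodCongr φ (MulEquiv.refl M)).toMonoidHom
        ↔ (x, (1 : M)) ∈ C := by rw [h2]
    exact h3
  -- a nontrivial element of `C`
  have hone : ∃ u v : M, (u, v) ∈ C ∧ u ≠ 1 := by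
    obtain ⟨⟨⟨u, v⟩, huv⟩, hne⟩ := Subgroup.ne_bot_iff_exists_ne_one.1 h0
    by_cases hu : u = 1
    · refine ⟨v, u, hswap u v huv, fun hv => hne ?_⟩
      subst hu; subst hv; rfl
    · exact ⟨u, v, huv, hu⟩
  obtain ⟨u, v, huv, hu⟩ := hone
  have hC1 : C.comap (MonoidHom.inl M M) = ⊤ := by
    rcases h.char _ hchar with h1 | h1
    · exfalso
      refine hu (h.center u fun g => ?_)
      have h2 : ((g, (1 : M)) * (u, v) * (g, (1 : M))⁻¹) * (u, v)⁻¹ ∈ C :=
        C.mul_mem (hCn.conj_mem _ huv _) (C.inv_mem huv)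
      have h3 : (g * u * g⁻¹ * u⁻¹) ∈ C.comap (MonoidHom.inl M M) := by
        show (g * u * g⁻¹ * u⁻¹, (1 : M)) ∈ C
        convert h2 using 1
        simp
      rw [h1] at h3
      have h4 : g * u * g⁻¹ * u⁻¹ = 1 := h3
      calc g * u = (g * u * g⁻¹ * u⁻¹) * (u * g) := by group
        _ = u * g := by rw [h4, one_mul]
    · exact h1
  rw [eq_top_iff]
  rintro ⟨x, y⟩ -
  have hx : (x, (1 : M)) ∈ C := by
    have : x ∈ C.comap (MonoidHom.inl M M) := by rw [hC1]; trivial
    exact this
  have hy : (y, (1 : M)) ∈ C := by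
    have : y ∈ C.comap (MonoidHom.inl M M) := by rw [hC1]; trivial
    exact this
  have := C.mul_mem hx (hswap _ _ hy)
  simpa using this

theorem Suitable.not_simple (h : Suitable M) : ¬ IsSimpleGroup (M × M) := by
  intro hs
  have := h.nontrivial
  obtain ⟨w, hw⟩ := exists_ne (1 : M)
  rcases hs.eq_bot_or_eq_top_of_normal (MonoidHom.fst M M).ker inferInstance with h1 | h1
  · have : ((1 : M), w) ∈ (MonoidHom.fst M M).ker := rfl
    rw [h1] at this
    exact hw (congrArg Prod.snd (Subgroup.mem_bot.1 this))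
  · have : (w, (1 : M)) ∈ (MonoidHom.fst M M).ker := by rw [h1]; trivial
    exact hw this

/-- In a finite power of a non-abelian simple group a normal subgroup with trivial centraliser is
everything. -/
theorem fcr_property {S : Type} [Group S] [hS : IsSimpleGroup S] (hab : ∃ a b : S, a * b ≠ b * a)
    {k : ℕ} (N : Subgroup (Fin k → S)) [hN : N.Normal]
    (hc : ∀ w : Fin k → S, (∀ n ∈ N, n * w = w * n) → w = 1) : N = ⊤ := by
  obtain ⟨a, b, hab⟩ := hab
  have hcen : ∀ z : S, (∀ g : S, g * z = z * g) → z = 1 := by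
    intro z hz
    have h1 : Subgroup.center S = ⊥ := by
      rcases hS.eq_bot_or_eq_top_of_normal (Subgroup.center S) inferInstance with h1 | h1
      · exact h1
      · exfalso
        have : b ∈ Subgroup.center S := by rw [h1]; trivial
        exact hab (Subgroup.mem_center_iff.1 this a)
    have : z ∈ Subgroup.center S := Subgroup.mem_center_iff.2 hz
    rw [h1] at this
    exact this
  have hsing : ∀ i : Fin k, ∀ s : S, Pi.mulSingle i s ∈ N := by
    intro i
    let C : Subgroup S := N.comap (MonoidHom.mulSingle (fun _ : Fin k => S) i)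
    have hCn : C.Normal := Subgroup.Normal.comap hN _
    have hC : C = ⊤ := by
      rcases hS.eq_bot_or_eq_top_of_normal C hCn with h1 | h1
      · exfalso
        have hni : ∀ n ∈ N, n i = 1 := by
          intro n hn
          refine hcen (n i) fun g => ?_
          have h2 : (Pi.mulSingle i g * n * (Pi.mulSingle i g)⁻¹) * n⁻¹ ∈ N :=
            N.mul_mem (hN.conj_mem n hn _) (N.inv_mem hn)
          have h3 : g * n i * g⁻¹ * (n i)⁻¹ ∈ C := by
            show Pi.mulSingle i (g * n i * g⁻¹ * (n i)⁻¹) ∈ N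
            convert h2 using 1
            funext j
            by_cases hj : j = i
            · subst hj
              simp
            · simp [hj]
          rw [h1] at h3
          have h4 : g * n i * g⁻¹ * (n i)⁻¹ = 1 := h3
          calc g * n i = (g * n i * g⁻¹ * (n i)⁻¹) * (n i * g) := by group
            _ = n i * g := by rw [h4, one_mul]
        obtain ⟨s, hs⟩ := exists_ne (1 : S)
        have h5 := hc (Pi.mulSingle i s) (by
          intro n hn
          funext j
          by_cases hj : j = i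
          · subst hj
            simp [hni n hn]
          · simp [hj])
        have h6 := congrFun h5 i
        rw [Pi.mulSingle_eq_same] at h6
        exact hs h6
      · exact h1
    intro s
    have : s ∈ C := by rw [hC]; trivial
    exact this
  rw [eq_top_iff]
  intro x _
  exact Subgroup.pi_mem_of_mulSingle_mem x fun i => hsing i (x i)

theorem Suitable.not_fcr (h : Suitable M) : ¬ IsFCR (M × M) := by
  rintro ⟨S, _, k, hS, hab, -, ⟨f⟩⟩
  obtain ⟨N, hN, hNtop, hNc⟩ := h.sub
  let N' : Subgroup (Fin k → S) := N.comap ((MonoidHom.fst M M).comp f.symm.toMonoidHom)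
  have hN'n : N'.Normal := Subgroup.Normal.comap hN _
  have h1 : N' = ⊤ := by
    refine fcr_property hab N' fun w hw => ?_
    have h2 : ∀ z : M × M, z.1 ∈ N → z * f.symm w = f.symm w * z := by
      intro z hz
      have h3 : f z ∈ N' := by
        show (f.symm (f z)).1 ∈ N
        rw [f.symm_apply_apply]
        exact hz
      have h4 := congrArg f.symm (hw _ h3)
      rwa [map_mul, map_mul, f.symm_apply_apply] at h4
    have h5 : (f.symm w).1 = 1 := by
      have : (f.symm w).1 ∈ Subgroup.centralizer (N : Set M) := by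
        rw [Subgroup.mem_centralizer_iff]
        intro n hn
        exact congrArg Prod.fst (h2 (n, 1) hn)
      rw [hNc] at this
      exact this
    have h6 : (f.symm w).2 = 1 :=
      h.center _ fun g => congrArg Prod.snd (h2 (1, g) N.one_mem)
    have h7 : f.symm w = 1 := Prod.ext h5 h6
    have := congrArg f h7
    rwa [f.apply_symm_apply, map_one] at this
  apply hNtop
  rw [eq_top_iff]
  intro x _
  have h2 : f (x, 1) ∈ N' := by rw [h1]; trivial
  have h3 : (f.symm (f (x, 1))).1 ∈ N := h2
  rwa [f.symm_apply_apply] at h3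

/-! ### The bijection `Ω_T = Ω_M × Ω_M` -/

/-- first coordinate -/
def c1 (m : ℕ) : Omega (M × M) m → Omega M m :=
  Quotient.map (fun x i => (x i).1) (by
    intro x y hxy
    obtain ⟨t, ht⟩ := (rel_iff x y).1 hxy
    exact (rel_iff _ _).2 ⟨t.1, fun i => by rw [ht i]; rfl⟩)

/-- second coordinate -/
def c2 (m : ℕ) : Omega (M × M) m → Omega M m :=
  Quotient.map (fun x i => (x i).2) (by
    intro x y hxy
    obtain ⟨t, ht⟩ := (rel_iff x y).1 hxy
    exact (rel_iff _ _).2 ⟨t.2, fun i => by rw [ht i]; rfl⟩)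

theorem c1_eq {m : ℕ} (x y : Fin (m + 1) → M × M) :
    c1 m (Quotient.mk _ x) = c1 m (Quotient.mk _ y) ↔ ∃ t : M, ∀ i, (y i).1 = t * (x i).1 := by
  unfold c1
  rw [Quotient.map_mk, Quotient.map_mk, Quotient.eq]
  exact rel_iff _ _

theorem c2_eq {m : ℕ} (x y : Fin (m + 1) → M × M) :
    c2 m (Quotient.mk _ x) = c2 m (Quotient.mk _ y) ↔ ∃ t : M, ∀ i, (y i).2 = t * (x i).2 := by
  unfold c2
  rw [Quotient.map_mk, Quotient.map_mk, Quotient.eq]
  exact rel_iff _ _

/-- the coordinate map -/
def cc (m : ℕ) (x : Omega (M × M) m) : Fin 2 → Omega M m := ![c1 m x, c2 m x]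

theorem cc_bij (m : ℕ) : Function.Bijective (cc (M := M) m) := by
  constructor
  · intro x y hxy
    induction x using Quotient.inductionOn with | _ x => ?_
    induction y using Quotient.inductionOn with | _ y => ?_
    have h1 : c1 m (Quotient.mk _ x) = c1 m (Quotient.mk _ y) := congrFun hxy 0
    have h2 : c2 m (Quotient.mk _ x) = c2 m (Quotient.mk _ y) := congrFun hxy 1
    obtain ⟨s, hs⟩ := (c1_eq x y).1 h1
    obtain ⟨t, ht⟩ := (c2_eq x y).1 h2
    exact Quotient.sound ((rel_iff x y).2 ⟨(s, t), fun i => Prod.ext (hs i) (ht i)⟩)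
  · intro z
    obtain ⟨x, hx⟩ := Quotient.exists_rep (z 0)
    obtain ⟨y, hy⟩ := Quotient.exists_rep (z 1)
    refine ⟨Quotient.mk _ (fun i => (x i, y i)), ?_⟩
    funext i
    fin_cases i
    · exact hx
    · exact hy

/-- the bijection -/
noncomputable def ee (m : ℕ) : Omega (M × M) m ≃ (Fin 2 → Omega M m) :=
  Equiv.ofBijective (cc m) (cc_bij m)

theorem cc_zero {m : ℕ} (x : Omega (M × M) m) : ee m x 0 = c1 m x := rfl

theorem cc_one {m : ℕ} (x : Omega (M × M) m) : ee m x 1 = c2 m x := rfl

/-- it suffices to treat representatives and the two coordinates -/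
theorem permutes_straight {m : ℕ} {g : Equiv.Perm (Omega (M × M) m)}
    (h1 : ∀ x y : Fin (m + 1) → M × M, c1 m (g (Quotient.mk _ x)) = c1 m (g (Quotient.mk _ y)) ↔
      c1 m (Quotient.mk _ x) = c1 m (Quotient.mk _ y))
    (h2 : ∀ x y : Fin (m + 1) → M × M, c2 m (g (Quotient.mk _ x)) = c2 m (g (Quotient.mk _ y)) ↔
      c2 m (Quotient.mk _ x) = c2 m (Quotient.mk _ y)) : Permutes (ee m) g := by
  refine ⟨1, fun x y => ?_⟩
  induction x using Quotient.inductionOn with | _ x => ?_
  induction y using Quotient.inductionOn with | _ y => ?_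
  rw [Fin.forall_fin_two]
  exact ⟨h1 x y, h2 x y⟩

theorem permutes_swapped {m : ℕ} {g : Equiv.Perm (Omega (M × M) m)}
    (h1 : ∀ x y : Fin (m + 1) → M × M, c1 m (g (Quotient.mk _ x)) = c1 m (g (Quotient.mk _ y)) ↔
      c2 m (Quotient.mk _ x) = c2 m (Quotient.mk _ y))
    (h2 : ∀ x y : Fin (m + 1) → M × M, c2 m (g (Quotient.mk _ x)) = c2 m (g (Quotient.mk _ y)) ↔
      c1 m (Quotient.mk _ x) = c1 m (Quotient.mk _ y)) : Permutes (ee m) g := by
  refine ⟨Equiv.swap 0 1, fun x y => ?_⟩
  induction x using Quotient.inductionOn with | _ x => ?_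
  induction y using Quotient.inductionOn with | _ y => ?_
  rw [Fin.forall_fin_two, Equiv.swap_apply_left, Equiv.swap_apply_right]
  exact ⟨h1 x y, h2 x y⟩

theorem permutes_rightMul {m : ℕ} (u : Fin (m + 1) → M × M) :
    Permutes (ee m) (rightMul u) := by
  have e : ∀ z : Fin (m + 1) → M × M, rightMul u (Quotient.mk _ z) = Quotient.mk _ (z * u) :=
    fun z => rfl
  refine permutes_straight (fun x y => ?_) (fun x y => ?_)
  · rw [e, e, c1_eq, c1_eq]
    refine exists_congr fun t => forall_congr' fun i => ?_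
    simp only [Pi.mul_apply, Prod.fst_mul]
    rw [← mul_assoc, mul_left_inj]
  · rw [e, e, c2_eq, c2_eq]
    refine exists_congr fun t => forall_congr' fun i => ?_
    simp only [Pi.mul_apply, Prod.snd_mul]
    rw [← mul_assoc, mul_left_inj]

theorem permutes_permMap {m : ℕ} (σ : Equiv.Perm (Fin (m + 1))) :
    Permutes (ee (M := M) m) (permMap σ) := by
  have e : ∀ z : Fin (m + 1) → M × M, permMap σ (Quotient.mk _ z)
      = Quotient.mk _ (fun i => z (σ.symm i)) := fun z => rfl
  refine permutes_straight (fun x y => ?_) (fun x y => ?_)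
  · rw [e, e, c1_eq, c1_eq]
    refine exists_congr fun t => ⟨fun h i => ?_, fun h i => h _⟩
    have := h (σ i)
    simpa using this
  · rw [e, e, c2_eq, c2_eq]
    refine exists_congr fun t => ⟨fun h i => ?_, fun h i => h _⟩
    have := h (σ i)
    simpa using this

theorem equiv_rel {m : ℕ} (p : M ≃* M) (x y : Fin (m + 1) → M) :
    (∃ t : M, ∀ i, p (y i) = t * p (x i)) ↔ ∃ t : M, ∀ i, y i = t * x i := by
  constructor
  · rintro ⟨t, ht⟩
    refine ⟨p.symm t, fun i => ?_⟩
    apply p.injective
    rw [map_mul, p.apply_symm_apply]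
    exact ht i
  · rintro ⟨t, ht⟩
    exact ⟨p t, fun i => by rw [ht i, map_mul]⟩

theorem permutes_autMap (h : Suitable M) {m : ℕ} (α : MulAut (M × M)) :
    Permutes (ee m) (autMap α) := by
  have e : ∀ z : Fin (m + 1) → M × M, autMap α (Quotient.mk _ z)
      = Quotient.mk _ (fun i => α (z i)) := fun z => rfl
  rcases h.aut α with ⟨p, q, hpq⟩ | ⟨p, q, hpq⟩
  · refine permutes_straight (fun x y => ?_) (fun x y => ?_)
    · rw [e, e, c1_eq, c1_eq]
      simp only [hpq]
      exact equiv_rel p (fun i => (x i).1) (fun i => (y i).1)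
    · rw [e, e, c2_eq, c2_eq]
      simp only [hpq]
      exact equiv_rel q (fun i => (x i).2) (fun i => (y i).2)
  · refine permutes_swapped (fun x y => ?_) (fun x y => ?_)
    · rw [e, e, c1_eq, c2_eq]
      simp only [hpq]
      exact equiv_rel p (fun i => (x i).2) (fun i => (y i).2)
    · rw [e, e, c2_eq, c1_eq]
      simp only [hpq]
      exact equiv_rel q (fun i => (x i).1) (fun i => (y i).1)

theorem Suitable.preserves (h : Suitable M) {m : ℕ} (hm : 1 ≤ m) :
    PreservesCartesianLattice (D (M × M) m) := by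
  refine ⟨Omega M m, 2, ee m, ?_, le_rfl, fun g hg => ?_⟩
  · have := h.nontrivial
    obtain ⟨w, hw⟩ := exists_ne (1 : M)
    refine ⟨⟨Quotient.mk _ (fun _ => 1), Quotient.mk _ (fun i => if i = 0 then w else 1), ?_⟩⟩
    intro heq
    obtain ⟨t, ht⟩ := (rel_iff _ _).1 (Quotient.exact heq)
    have h0 := ht 0
    have h1 := ht (Fin.last m)
    rw [if_pos rfl] at h0
    rw [if_neg (by
      intro h2
      have := congrArg Fin.val h2
      simp at this
      omega)] at h1
    rw [← h1] at h0
    exact hw h0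
  · refine image_of_permutes _ (permutes_closure _ ?_ hg)
    rintro g ((⟨u, rfl⟩ | ⟨α, rfl⟩) | ⟨σ, rfl⟩)
    · exact permutes_rightMul u
    · exact permutes_autMap h α
    · exact permutes_permMap σ

/-! ### The McLain group -/

theorem suitable_McLain : Suitable McL.M where
  char := McL.char_M
  nonab := ⟨_, _, McL.tM_ne_comm (c := 0) (d := 1) (e := 2) (by norm_num) (by norm_num)⟩
  inf := fun N₁ N₂ h1 h2 => McL.inf_ne_bot N₁ N₂
  sub := ⟨McL.N0, McL.N0_normal, McL.N0_ne_top, McL.N0_centralizer⟩

/-- **Main result.** There is a non-abelian characteristically simple group `T`, neither simple nor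
FCR, such that for every `m > 1` the diagonal group `D(T, m)` preserves a Cartesian lattice. -/
theorem result : ∃ (T : Type) (_ : Group T), (∃ a b : T, a * b ≠ b * a) ∧ CharSimple T ∧
    ¬ IsSimpleGroup T ∧ ¬ IsFCR T ∧ ∀ m : ℕ, 1 < m → PreservesCartesianLattice (D T m) := by
  refine ⟨McL.M × McL.M, inferInstance, ?_, suitable_McLain.charSimple,
    suitable_McLain.not_simple, suitable_McLain.not_fcr,
    fun m hm => suitable_McLain.preserves (by omega)⟩
  obtain ⟨a, b, hab⟩ := suitable_McLain.nonab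
  exact ⟨(a, 1), (b, 1), fun h => hab (congrArg Prod.fst h)⟩

end Pool.Agent.Results.MP_f6f6d4_al.McLainSquare
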